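import Pool.Agent.Q62.CC.Stm

/-!
# Project CC (helper62), job EFN: the eigenfunctions are multiples of `Sz`
-/

set_option autoImplicit false

open Set Filter Topology MeasureTheory
open scoped ENNReal ContDiff

namespace Pool.Agent.Q150.CC

open Pool.Agent.Q62.CC

theorem const_Icc {α β : ℝ} {A : ℝ → ℝ}
    (h : ∀ x ∈ Icc α β, HasDerivWithinAt A 0 (Icc α β) x) :
    ∀ x ∈ Icc α β, A x = A α := by
  apply constant_of_derivWithin_zero (fun x hx => (h x hx).differentiableWithinAt)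
  intro x hx
  have hx' : x ∈ Icc α β := Ico_subset_Icc_self hx
  exact (h x hx').derivWithin ((uniqueDiffOn_Icc (hx.1.trans_lt hx.2)) x hx')

theorem t_EFN (hp1 : S_ODE) (hp2 : S_GRD) : S_EFN := by
  intro m x₀ x₁ α β M c hW φ μ hφ hμ heq hnorm
  have hab := hW.hab
  have hsub : Icc α β ⊆ Ioo x₀ x₁ := fun x hx => ⟨hW.h0.trans_le hx.1, hx.2.trans_lt hW.h1⟩
  have hmc : ContinuousOn m (Icc α β) := hW.smooth.continuousOn.mono hsub
  obtain ⟨F', hF1, hF2, hFa, hFb⟩ := hp2 α β (fun y => m y * φ y) hab (hmc.mul hφ)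
  have hαm : α ∈ Icc α β := left_mem_Icc.mpr hab.le
  have hβm : β ∈ Icc α β := right_mem_Icc.mpr hab.le
  have hφa : φ α = 0 := by
    have h1 := heq α hαm
    rw [hFa] at h1
    rcases mul_eq_zero.mp h1.symm with h2 | h2
    · exact absurd h2 hμ
    · exact h2
  have hφb : φ β = 0 := by
    have h1 := heq β hβm
    rw [hFb] at h1
    rcases mul_eq_zero.mp h1.symm with h2 | h2
    · exact absurd h2 hμ
    · exact h2
  -- first and second derivative
  have hd1 : ∀ x ∈ Icc α β, HasDerivWithinAt φ (μ⁻¹ * F' x) (Icc α β) x := by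
    intro x hx
    have h1 := (hF1 x hx).const_mul μ⁻¹
    have h2 : ∀ y ∈ Icc α β, φ y = μ⁻¹ * ∫ z in Icc α β, Gr α β y z * (m z * φ z) := by
      intro y hy
      rw [heq y hy, ← mul_assoc, inv_mul_cancel₀ hμ, one_mul]
    exact h1.congr h2 (h2 x hx)
  have hd2 : ∀ x ∈ Icc α β,
      HasDerivWithinAt (fun y => μ⁻¹ * F' y) (-μ⁻¹ * (m x * φ x)) (Icc α β) x := by
    intro x hx
    have h1 := (hF2 x hx).const_mul μ⁻¹
    refine h1.congr_deriv ?_
    ring
  obtain ⟨hC0, hC0', hS0, hS0', hode⟩ := hp1 m x₀ x₁ α β M c hW (-μ⁻¹)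
  set p : ℝ := μ⁻¹ * F' α with hp
  have hA : ∀ x ∈ Icc α β, φ x * Sdz m α (-μ⁻¹) x - (μ⁻¹ * F' x) * Sz m α (-μ⁻¹) x = 0 := by
    intro x hx
    have h1 := const_Icc (α := α) (β := β)
      (A := fun x => φ x * Sdz m α (-μ⁻¹) x - (μ⁻¹ * F' x) * Sz m α (-μ⁻¹) x) (by
        intro x hx
        obtain ⟨-, -, h3, h4, -, -⟩ := hode x (hsub hx)
        have h5 := ((hd1 x hx).mul h4.hasDerivWithinAt).sub ((hd2 x hx).mul h3.hasDerivWithinAt)
        refine h5.congr_deriv ?_
        ring) x hx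
    rw [h1, hφa, hS0]
    ring
  have hB : ∀ x ∈ Icc α β,
      φ x * Cdz m α (-μ⁻¹) x - (μ⁻¹ * F' x) * Cz m α (-μ⁻¹) x = -p := by
    intro x hx
    have h1 := const_Icc (α := α) (β := β)
      (A := fun x => φ x * Cdz m α (-μ⁻¹) x - (μ⁻¹ * F' x) * Cz m α (-μ⁻¹) x) (by
        intro x hx
        obtain ⟨h3, h4, -, -, -, -⟩ := hode x (hsub hx)
        have h5 := ((hd1 x hx).mul h4.hasDerivWithinAt).sub ((hd2 x hx).mul h3.hasDerivWithinAt)
        refine h5.congr_deriv ?_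
        ring) x hx
    rw [h1, hφa, hC0]
    ring
  have hφS : ∀ x ∈ Icc α β, φ x = p * Sz m α (-μ⁻¹) x := by
    intro x hx
    obtain ⟨-, -, -, -, -, hw⟩ := hode x (hsub hx)
    have h1 := hA x hx
    have h2 := hB x hx
    linear_combination (-φ x) * hw + Cz m α (-μ⁻¹) x * h1 - Sz m α (-μ⁻¹) x * h2
  have hp0 : p ≠ 0 := by
    intro h0
    have h1 : ∫ x in Icc α β, m x * φ x ^ 2 = 0 := by
      rw [setIntegral_congr_fun measurableSet_Icc (g := fun _ => (0 : ℝ))]
      · simp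
      · intro x hx
        show m x * φ x ^ 2 = 0
        rw [hφS x hx, h0]
        ring
    rw [h1] at hnorm
    exact zero_ne_one hnorm
  refine ⟨?_, ?_, p, hφS⟩
  · -- positivity
    have hc1 : ContinuousOn (fun y => μ⁻¹ * F' y) (Icc α β) := fun x hx =>
      (hd2 x hx).continuousWithinAt
    have hci : ContinuousOn (fun x => (μ⁻¹ * F' x) ^ 2 - μ⁻¹ * (m x * φ x ^ 2)) (Icc α β) :=
      (hc1.pow 2).sub (continuousOn_const.mul (hmc.mul (hφ.pow 2)))
    have hint : ∀ g : ℝ → ℝ, ContinuousOn g (Icc α β) → IntervalIntegrable g volume α β := by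
      intro g hg
      apply ContinuousOn.intervalIntegrable
      rwa [uIcc_of_le hab.le]
    have hFTC := intervalIntegral.integral_eq_sub_of_hasDerivAt_of_le hab.le
      (f := fun x => φ x * (μ⁻¹ * F' x))
      (f' := fun x => (μ⁻¹ * F' x) ^ 2 - μ⁻¹ * (m x * φ x ^ 2)) (hφ.mul hc1)
      (by
        intro x hx
        have hx' := Ioo_subset_Icc_self hx
        have h1 := ((hd1 x hx').mul (hd2 x hx')).hasDerivAt (Icc_mem_nhds hx.1 hx.2)
        refine h1.congr_deriv ?_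
        ring)
      (hint _ hci)
    have hs1 : IntervalIntegrable (fun x => (μ⁻¹ * F' x) ^ 2) volume α β := hint _ (hc1.pow 2)
    have hs2 : IntervalIntegrable (fun x => μ⁻¹ * (m x * φ x ^ 2)) volume α β :=
      hint _ (continuousOn_const.mul (hmc.mul (hφ.pow 2)))
    rw [hφa, hφb, zero_mul, zero_mul, sub_zero, intervalIntegral.integral_sub hs1 hs2,
      intervalIntegral.integral_const_mul] at hFTC
    have h2 : ∫ x in α..β, m x * φ x ^ 2 = 1 := by
      rw [intervalIntegral.integral_of_le hab.le, ← integral_Icc_eq_integral_Ioc]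
      exact hnorm
    rw [h2, mul_one] at hFTC
    have h3 : 0 ≤ ∫ x in α..β, (μ⁻¹ * F' x) ^ 2 :=
      intervalIntegral.integral_nonneg hab.le fun x _ => sq_nonneg _
    have h4 : 0 ≤ μ⁻¹ := by linarith
    exact lt_of_le_of_ne (inv_nonneg.mp h4) hμ.symm
  · have h1 := hφS β hβm
    rw [hφb] at h1
    rcases mul_eq_zero.mp h1.symm with h2 | h2
    · exact absurd h2 hp0
    · exact h2

end Pool.Agent.Q150.CC
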