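import Pool.Agent.Q62.CC.Stn

/-!
# Project CC (helper62), job ZER: the datum is zero if the angular velocity is zero
-/

set_option autoImplicit false

open Set Filter Topology MeasureTheory
open scoped ENNReal ContDiff

namespace Pool.Agent.Q150.CC

open Pool.Agent.Q62.CC
open Pool.Agent.Q61.NC (IsJet Bd mulJ Good sh Sp pd StopsIn)

theorem N2_cont {d : ℕ} (j k : Fin d) : Continuous (N2 j k) := by
  unfold N2
  fun_prop

theorem pt {d : ℕ} {j k : Fin d} (hjk : j ≠ k) (f : ℝ → ℝ) (h : Fin d → ℝ → ℝ)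
    (Ω : ℝ → ℝ → ℝ) (A : Fin d → ℝ → ℝ → ℝ) (t : ℝ) (x : Sp d) (hx : 0 < N2 j k x)
    (h0 : Ω t (N2 j k x) = 0) :
    ‖f (√(N2 j k x))‖ₑ ^ 2 ≤ ‖vel j k Ω A t x - dat j k f h x‖ₑ ^ 2 := by
  refine pow_le_pow_left' (enorm_le_iff_norm_le.mpr ?_) 2
  rw [← sq_le_sq₀ (norm_nonneg _) (norm_nonneg _), EuclideanSpace.norm_sq_eq]
  have hj : (vel j k Ω A t x - dat j k f h x) j = x k / √(N2 j k x) * f (√(N2 j k x)) := by
    show (vel j k Ω A t x) j - (dat j k f h x) j = _
    unfold vel dat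
    simp [h0]
  have hk : (vel j k Ω A t x - dat j k f h x) k = -(x j / √(N2 j k x) * f (√(N2 j k x))) := by
    show (vel j k Ω A t x) k - (dat j k f h x) k = _
    unfold vel dat
    simp [h0, hjk.symm]
  have h1 : ∑ i ∈ ({j, k} : Finset (Fin d)), ‖(vel j k Ω A t x - dat j k f h x) i‖ ^ 2 ≤
      ∑ i, ‖(vel j k Ω A t x - dat j k f h x) i‖ ^ 2 :=
    Finset.sum_le_sum_of_subset_of_nonneg (Finset.subset_univ _) fun i _ _ => by positivity
  rw [Finset.sum_pair hjk, hj, hk] at h1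
  refine le_trans (le_of_eq ?_) h1
  simp only [Real.norm_eq_abs, sq_abs, neg_sq, mul_pow, div_pow]
  rw [Real.sq_sqrt hx.le]
  have h2 : N2 j k x = x j ^ 2 + x k ^ 2 := rfl
  field_simp
  rw [h2]
  ring

theorem t_ZER (hp1 : S_SHR) (hp2 : S_SHL) (hp3 : S_SQM) (hp4 : S_NUL) : S_ZER := by
  intro d j k a b T hjk ha hab f h Ω A p hf hst hΩ
  have hN := N2_cont j k
  set E : Set (Sp d) := {x : Sp d | x ∈ shell j k a b ∧ ∀ i, |x i| ≤ b} with hE
  have hEcl : IsClosed E := by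
    have h1 : E = {x : Sp d | a ^ 2 ≤ N2 j k x} ∩ {x : Sp d | N2 j k x ≤ b ^ 2} ∩
        ⋂ i, {x : Sp d | |x i| ≤ b} := by
      ext x
      simp only [hE, shell, mem_inter_iff, mem_iInter]
      rfl
    rw [h1]
    refine ((isClosed_le continuous_const hN).inter (isClosed_le hN continuous_const)).inter
      (isClosed_iInter fun i => isClosed_le ?_ continuous_const)
    fun_prop
  have hEm : MeasurableSet E := hEcl.measurableSet
  have hEb : Bornology.IsBounded E := by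
    rw [isBounded_iff_forall_norm_le]
    refine ⟨√(∑ _i : Fin d, b ^ 2), fun x hx => ?_⟩
    rw [EuclideanSpace.norm_eq]
    refine Real.sqrt_le_sqrt (Finset.sum_le_sum fun i _ => ?_)
    exact pow_le_pow_left₀ (norm_nonneg _) (hx.2 i) 2
  have hEN : ∀ x ∈ E, N2 j k x ∈ Icc (a ^ 2) (b ^ 2) := fun x hx => hx.1
  -- the datum has no circular part on `E`
  have hI : ∫⁻ x in E, ‖f (√(N2 j k x))‖ₑ ^ 2 = 0 := by
    have h1 := hst.initial E (fun x hx => hx.1) hEm hEb
    refine le_antisymm (ge_of_tendsto h1 ?_) zero_le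
    filter_upwards [self_mem_nhdsWithin] with t ht
    refine setLIntegral_mono' hEm fun x hx => ?_
    refine pt hjk f h Ω A t x ?_ (hΩ t ht _ (hEN x hx))
    have := (hEN x hx).1
    have h2 : 0 < a ^ 2 := by positivity
    linarith
  -- a measurable version
  have hF := hp3 a b ha hab f hf
  set g : ℝ → ℝ := hF.mk (fun s => f (√s)) with hg
  have hgm : Measurable g := hF.measurable_mk
  have hFg : (fun s => f (√s)) =ᵐ[volume.restrict (Icc (a ^ 2) (b ^ 2))] g := hF.ae_eq_mk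
  set S : Set ℝ := {s | f (√s) ≠ g s} with hS
  have hS0 : volume.restrict (Icc (a ^ 2) (b ^ 2)) S = 0 := hFg
  set Z : Set ℝ := toMeasurable (volume.restrict (Icc (a ^ 2) (b ^ 2))) S with hZ
  have hZm : MeasurableSet Z := measurableSet_toMeasurable _ _
  have hZ0 : volume.restrict (Icc (a ^ 2) (b ^ 2)) Z = 0 := by
    rw [hZ, measure_toMeasurable, hS0]
  have hSZ : S ⊆ Z := subset_toMeasurable _ _
  obtain ⟨C, _, hC⟩ := hp2 d j k a b b hjk ha hab
  have hGm : Measurable (Z.indicator (1 : ℝ → ℝ≥0∞)) := measurable_one.indicator hZm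
  have h1 : ∫⁻ x in E, Z.indicator (1 : ℝ → ℝ≥0∞) (N2 j k x) = 0 := by
    have h2 := hC (Z.indicator 1) hGm.aemeasurable
    rw [lintegral_indicator_one hZm, hZ0, mul_zero] at h2
    exact le_antisymm h2 zero_le
  have h2 : ∀ᵐ x ∂(volume.restrict E), f (√(N2 j k x)) = g (N2 j k x) := by
    have h1' := (lintegral_eq_zero_iff (hGm.comp hN.measurable)).mp h1
    filter_upwards [h1'] with x hx
    by_contra h3
    have h4 : N2 j k x ∈ Z := hSZ h3
    have h5 : Z.indicator (1 : ℝ → ℝ≥0∞) (N2 j k x) = 0 := hx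
    rw [indicator_of_mem h4] at h5
    exact one_ne_zero h5
  have h3 : ∫⁻ x in E, (fun s => ‖g s‖ₑ ^ 2) (N2 j k x) = 0 := by
    rw [← hI]
    refine lintegral_congr_ae ?_
    filter_upwards [h2] with x hx
    show ‖g (N2 j k x)‖ₑ ^ 2 = _
    rw [hx]
  have h4 := hp1 d j k a b hjk ha hab (fun s => ‖g s‖ₑ ^ 2) (hgm.enorm.pow_const 2) h3
  have h5 : g =ᵐ[volume.restrict (Icc (a ^ 2) (b ^ 2))] 0 := by
    rw [lintegral_eq_zero_iff (hgm.enorm.pow_const 2)] at h4
    filter_upwards [h4] with s hs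
    have h6 : ‖g s‖ₑ ^ 2 = 0 := hs
    have h7 : ‖g s‖ₑ = 0 := by simpa using h6
    exact enorm_eq_zero.mp h7
  exact (hp4 a b ha hab f).mpr (hFg.trans h5)

end Pool.Agent.Q150.CC
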